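import Pool.Agent.W669.HD.Stm

/-!
# Sums satisfy the pointwise hypothesis
-/

set_option autoImplicit false

namespace Pool.Agent.W150.HD

open Pool.Agent.W669.HD Pool.Agent.W666.GB Finset

section algebra

/-- the determinant with rows `a b c d` -/
def D (a b c d : Fin 4 → ℝ) : ℝ :=
  (a 0 * b 1 - a 1 * b 0) * (c 2 * d 3 - c 3 * d 2) - (a 0 * b 2 - a 2 * b 0) * (c 1 * d 3 - c 3 * d 1) +
  (a 0 * b 3 - a 3 * b 0) * (c 1 * d 2 - c 2 * d 1) + (a 1 * b 2 - a 2 * b 1) * (c 0 * d 3 - c 3 * d 0) -
  (a 1 * b 3 - a 3 * b 1) * (c 0 * d 2 - c 2 * d 0) + (a 2 * b 3 - a 3 * b 2) * (c 0 * d 1 - c 1 * d 0)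

theorem det4 (A : Matrix (Fin 4) (Fin 4) ℝ) : A.det = D (A 0) (A 1) (A 2) (A 3) := by
  rw [Matrix.det_succ_row_zero]
  simp only [Fin.sum_univ_succ, Matrix.det_fin_three, Matrix.submatrix_apply, D]
  simp [Fin.succAbove, Fin.lt_def]
  ring

theorem eps_eq (i j k l : Fin 4) : eps i j k l =
    D (fun b => if i = b then 1 else 0) (fun b => if j = b then 1 else 0)
      (fun b => if k = b then 1 else 0) (fun b => if l = b then 1 else 0) := by
  unfold eps
  rw [det4]
  rfl

theorem swap3 {α β γ : Type*} [Fintype α] [Fintype β] [Fintype γ] (G : α → β → γ → ℝ) :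
    ∑ a, ∑ b, ∑ i, G a b i = ∑ i, ∑ a, ∑ b, G a b i := by
  calc ∑ a, ∑ b, ∑ i, G a b i = ∑ a, ∑ i, ∑ b, G a b i := sum_congr rfl fun a _ => sum_comm
    _ = ∑ i, ∑ a, ∑ b, G a b i := sum_comm

variable {ι : Type*} [Fintype ι]

/-- the quadratic form of a tensor -/
def S4 (K : ι → ι → ι → ι → ℝ) (X Z : ι → ι → ℝ) : ℝ :=
  ∑ i, ∑ j, ∑ k, ∑ l, K i j k l * (X i j * Z k l)

theorem S4_add (K : ι → ι → ι → ι → ℝ) (X X' Z : ι → ι → ℝ) :
    S4 K (fun i j => X i j + X' i j) Z = S4 K X Z + S4 K X' Z := by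
  unfold S4
  simp only [← Finset.sum_add_distrib]
  refine sum_congr rfl fun i _ => sum_congr rfl fun j _ => sum_congr rfl fun k _ =>
    sum_congr rfl fun l _ => by ring

theorem S4_add' (K : ι → ι → ι → ι → ℝ) (X Z Z' : ι → ι → ℝ) :
    S4 K X (fun i j => Z i j + Z' i j) = S4 K X Z + S4 K X Z' := by
  unfold S4
  simp only [← Finset.sum_add_distrib]
  refine sum_congr rfl fun i _ => sum_congr rfl fun j _ => sum_congr rfl fun k _ =>
    sum_congr rfl fun l _ => by ring

theorem S4_smul (K : ι → ι → ι → ι → ℝ) (c : ℝ) (X Z : ι → ι → ℝ) :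
    S4 K (fun i j => c * X i j) Z = c * S4 K X Z := by
  unfold S4
  simp only [Finset.mul_sum]
  refine sum_congr rfl fun i _ => sum_congr rfl fun j _ => sum_congr rfl fun k _ =>
    sum_congr rfl fun l _ => by ring

theorem S4_smul' (K : ι → ι → ι → ι → ℝ) (c : ℝ) (X Z : ι → ι → ℝ) :
    S4 K X (fun i j => c * Z i j) = c * S4 K X Z := by
  unfold S4
  simp only [Finset.mul_sum]
  refine sum_congr rfl fun i _ => sum_congr rfl fun j _ => sum_congr rfl fun k _ =>
    sum_congr rfl fun l _ => by ring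

theorem S4_tr (K : ι → ι → ι → ι → ℝ) (hK : ∀ i j k l, K j i k l = - K i j k l)
    (X Z : ι → ι → ℝ) : S4 K (fun i j => X j i) Z = - S4 K X Z := by
  unfold S4
  rw [sum_comm]
  simp only [← Finset.sum_neg_distrib]
  refine sum_congr rfl fun i _ => sum_congr rfl fun j _ => sum_congr rfl fun k _ =>
    sum_congr rfl fun l _ => ?_
  rw [hK i j k l]
  ring

theorem S4_tr' (K : ι → ι → ι → ι → ℝ) (hK : ∀ i j k l, K i j l k = - K i j k l)
    (X Z : ι → ι → ℝ) : S4 K X (fun i j => Z j i) = - S4 K X Z := by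
  unfold S4
  simp only [← Finset.sum_neg_distrib]
  refine sum_congr rfl fun i _ => sum_congr rfl fun j _ => ?_
  rw [sum_comm]
  refine sum_congr rfl fun k _ => sum_congr rfl fun l _ => ?_
  rw [hK i j k l]
  ring

theorem S4_anti (K : ι → ι → ι → ι → ℝ) (hK : ∀ i j k l, K j i k l = - K i j k l)
    (hK' : ∀ i j k l, K i j l k = - K i j k l) (X : ι → ι → ℝ) :
    S4 K (fun i j => (1 / 2) * (X i j + (-1) * X j i)) (fun i j => (1 / 2) * (X i j + (-1) * X j i)) =
      S4 K X X := by
  rw [S4_smul, S4_smul', S4_add, S4_add', S4_add', S4_smul, S4_smul', S4_smul, S4_smul']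
  rw [S4_tr K hK X X, S4_tr' K hK' X X, S4_tr K hK X (fun i j => X j i), S4_tr' K hK' X X]
  ring

end algebra

section forms

variable {V : Type} [NormedAddCommGroup V] [InnerProductSpace ℝ V]

theorem zeroK {K : V → V → V → V → ℝ} (hK : BiForm K) (y z w : V) : K 0 y z w = 0 := by
  have := hK.smul 0 0 y z w
  simpa using this

theorem sumK {K : V → V → V → V → ℝ} (hK : BiForm K) {ι : Type*} (s : Finset ι) (c : ι → ℝ)
    (f : ι → V) (y z w : V) :
    K (∑ i ∈ s, c i • f i) y z w = ∑ i ∈ s, c i * K (f i) y z w := by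
  classical
  induction s using Finset.induction_on with
  | empty => simpa using zeroK hK y z w
  | insert a s ha ih => rw [sum_insert ha, sum_insert ha, hK.add, hK.smul, ih]

/-- `K` vanishes on the complement of the vectors `f i` -/
def Kills {ι : Type*} (f : ι → V) (K : V → V → V → V → ℝ) : Prop :=
  ∀ x, (∀ i, inner ℝ (f i) x = 0) → ∀ y z w, K x y z w = 0

variable {ι : Type*} [Fintype ι] {f : ι → V} {K : V → V → V → V → ℝ}

theorem rest [DecidableEq ι] (hf : Orthonormal ℝ f) (x : V) (j : ι) :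
    inner ℝ (f j) (x - ∑ i, inner ℝ (f i) x • f i) = 0 := by
  rw [inner_sub_right, inner_sum]
  simp only [inner_smul_right]
  rw [sum_eq_single j]
  · rw [real_inner_self_eq_norm_sq, hf.1 j]; ring
  · intro i _ hij
    rw [hf.2 (Ne.symm hij), mul_zero]
  · intro h; exact absurd (mem_univ j) h

theorem ex1 (hK : BiForm K) (hf : Orthonormal ℝ f) (hk : Kills f K) (x y z w : V) :
    K x y z w = ∑ i, inner ℝ (f i) x * K (f i) y z w := by
  classical
  have h0 := hk _ (rest hf x) y z w
  have h1 : x = (∑ i, inner ℝ (f i) x • f i) + (x - ∑ i, inner ℝ (f i) x • f i) := by abel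
  conv_lhs => rw [h1]
  rw [hK.add, h0, add_zero, sumK hK]

theorem ex2 (hK : BiForm K) (hf : Orthonormal ℝ f) (hk : Kills f K) (x y z w : V) :
    K x y z w = ∑ i, inner ℝ (f i) y * K x (f i) z w := by
  have h1 : K x y z w = - K y x z w := by rw [hK.anti x y]; ring
  rw [h1, ex1 hK hf hk, ← sum_neg_distrib]
  refine sum_congr rfl fun i _ => ?_
  rw [hK.anti x (f i)]; ring

theorem ex3 (hK : BiForm K) (hf : Orthonormal ℝ f) (hk : Kills f K) (x y z w : V) :
    K x y z w = ∑ i, inner ℝ (f i) z * K x y (f i) w := by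
  rw [← hK.pair, ex1 hK hf hk]
  refine sum_congr rfl fun i _ => ?_
  rw [hK.pair]

theorem ex4 (hK : BiForm K) (hf : Orthonormal ℝ f) (hk : Kills f K) (x y z w : V) :
    K x y z w = ∑ i, inner ℝ (f i) w * K x y z (f i) := by
  rw [← hK.pair, ex2 hK hf hk]
  refine sum_congr rfl fun i _ => ?_
  rw [hK.pair]

theorem expand (hK : BiForm K) (hf : Orthonormal ℝ f) (hk : Kills f K) (x y z w : V) :
    K x y z w = ∑ i, ∑ j, ∑ k, ∑ l, K (f i) (f j) (f k) (f l) *
      ((inner ℝ (f i) x * inner ℝ (f j) y) * (inner ℝ (f k) z * inner ℝ (f l) w)) := by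
  rw [ex1 hK hf hk]
  refine sum_congr rfl fun i _ => ?_
  rw [ex2 hK hf hk, mul_sum]
  refine sum_congr rfl fun j _ => ?_
  rw [ex3 hK hf hk, mul_sum, mul_sum]
  refine sum_congr rfl fun k _ => ?_
  rw [ex4 hK hf hk, mul_sum, mul_sum, mul_sum]
  refine sum_congr rfl fun l _ => by ring

theorem op_sum (hK : BiForm K) (hf : Orthonormal ℝ f) (hk : Kills f K) (n : ℕ) (x y : Fin n → V) :
    ∑ a, ∑ b, K (x a) (y a) (x b) (y b) =
      S4 (fun i j k l => K (f i) (f j) (f k) (f l))
        (fun i j => ∑ a, inner ℝ (f i) (x a) * inner ℝ (f j) (y a))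
        (fun i j => ∑ a, inner ℝ (f i) (x a) * inner ℝ (f j) (y a)) := by
  have h : ∀ a b, K (x a) (y a) (x b) (y b) = ∑ i, ∑ j, ∑ k, ∑ l, K (f i) (f j) (f k) (f l) *
      ((inner ℝ (f i) (x a) * inner ℝ (f j) (y a)) * (inner ℝ (f k) (x b) * inner ℝ (f l) (y b))) :=
    fun a b => expand hK hf hk _ _ _ _
  simp only [h]
  unfold S4
  rw [swap3]
  refine sum_congr rfl fun i _ => ?_
  rw [swap3]
  refine sum_congr rfl fun j _ => ?_
  rw [swap3]
  refine sum_congr rfl fun k _ => ?_
  rw [swap3]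
  refine sum_congr rfl fun l _ => ?_
  rw [Finset.sum_mul_sum, mul_sum]
  refine sum_congr rfl fun a _ => ?_
  rw [mul_sum]

theorem biAnti (hK : BiForm K) (x y z w : V) : K x y w z = - K x y z w := by
  rw [← hK.pair, hK.anti, hK.pair]

theorem op_nonneg_of (hK : BiForm K) (hf : Orthonormal ℝ f) (hk : Kills f K)
    (h : ∀ X : ι → ι → ℝ, (∀ i j, X j i = - X i j) →
      0 ≤ ∑ i, ∑ j, ∑ k, ∑ l, K (f i) (f j) (f k) (f l) * (X i j * X k l)) : OpNonneg K := by
  intro n x y
  rw [op_sum hK hf hk, ← S4_anti (fun i j k l => K (f i) (f j) (f k) (f l))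
    (fun i j k l => hK.anti _ _ _ _) (fun i j k l => biAnti hK _ _ _ _)]
  exact h _ fun i j => by ring

end forms

section main

variable {V : Type} [NormedAddCommGroup V] [InnerProductSpace ℝ V]

/-- the volume form of the vectors `f i` -/
noncomputable def vol (f : Fin 4 → V) (t : ℝ) (x y z w : V) : ℝ :=
  -t * D (fun i => inner ℝ (f i) x) (fun i => inner ℝ (f i) y) (fun i => inner ℝ (f i) z)
    (fun i => inner ℝ (f i) w)

theorem vol_four (f : Fin 4 → V) (t : ℝ) : FourForm (vol f t) := by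
  refine ⟨⟨?_, ?_, ?_, ?_⟩, ?_⟩
  · intro x x' y z w
    simp only [vol, D, inner_add_right]; ring
  · intro s x y z w
    simp only [vol, D, inner_smul_right]; ring
  · intro x y z w
    simp only [vol, D]; ring
  · intro x y z w
    simp only [vol, D]; ring
  · intro x y z w
    simp only [vol, D]; ring

theorem vol_basis {f : Fin 4 → V} (hf : Orthonormal ℝ f) (t : ℝ) (i j k l : Fin 4) :
    vol f t (f i) (f j) (f k) (f l) = - t * eps i j k l := by
  have h : ∀ i, (fun b => inner ℝ (f b) (f i)) = fun b => if i = b then (1 : ℝ) else 0 := by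
    intro i
    funext b
    rw [orthonormal_iff_ite.mp hf b i]
    by_cases h : b = i
    · rw [if_pos h, if_pos h.symm]
    · rw [if_neg h, if_neg (Ne.symm h)]
  rw [vol, eps_eq, h i, h j, h k, h l]

theorem vol_kills (f : Fin 4 → V) (t : ℝ) : Kills f (vol f t) := by
  intro x hx y z w
  simp only [vol, D, hx]; ring

theorem curv_bi {R : V → V → V → V → ℝ} (h : AlgCurv R) : BiForm R :=
  ⟨h.add, h.smul, h.anti, h.pair⟩

theorem neg_bi {R : V → V → V → V → ℝ} (h : BiForm R) : BiForm (negT R) := by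
  refine ⟨?_, ?_, ?_, ?_⟩
  · intro x x' y z w
    simp only [negT, h.add]; ring
  · intro s x y z w
    simp only [negT, h.smul]; ring
  · intro x y z w
    simp only [negT]
    rw [h.anti x y]
  · intro x y z w
    simp only [negT]
    rw [h.pair x y]

theorem add_bi {R S : V → V → V → V → ℝ} (h : BiForm R) (h' : BiForm S) : BiForm (addT R S) := by
  refine ⟨?_, ?_, ?_, ?_⟩
  · intro x x' y z w
    simp only [addT, h.add, h'.add]; ring
  · intro s x y z w
    simp only [addT, h.smul, h'.smul]; ring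
  · intro x y z w
    simp only [addT]
    rw [h.anti x y, h'.anti x y]; ring
  · intro x y z w
    simp only [addT]
    rw [h.pair x y, h'.pair x y]

theorem S4_sec {R : V → V → V → V → ℝ} (hR : BiForm R) {f : Fin 4 → V} (hf : Orthonormal ℝ f)
    (hk : Kills f R) (a b : Fin 4 → ℝ) :
    ∑ i, ∑ j, ∑ k, ∑ l, - R (f i) (f j) (f k) (f l) * (a i * b j * a k * b l) =
      - R (∑ i, a i • f i) (∑ j, b j • f j) (∑ i, a i • f i) (∑ j, b j • f j) := by
  have h : ∀ (c : Fin 4 → ℝ) (i : Fin 4), inner ℝ (f i) (∑ i, c i • f i) = c i := by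
    intro c i
    exact hf.inner_right_fintype c i
  rw [expand hR hf hk]
  simp only [h, ← sum_neg_distrib]
  refine sum_congr rfl fun i _ => sum_congr rfl fun j _ => sum_congr rfl fun k _ =>
    sum_congr rfl fun l _ => by ring

theorem small {R₁ R₂ : V → V → V → V → ℝ} (h1 : AlgCurv R₁) (hd : Module.finrank ℝ V ≤ 4)
    (hop1 : OpNonneg (negT R₁)) (hop : OpNonneg (negT R₂)) : FourPlane (addT R₁ R₂) := by
  refine ⟨⊤, fun _ _ _ _ => 0, negT R₁, ?_, ?_, ?_, neg_bi (curv_bi h1), ?_, hop1, ?_, ?_⟩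
  · rw [finrank_top]; exact hd
  · refine ⟨⟨?_, ?_, ?_, ?_⟩, ?_⟩ <;> intros <;> simp
  · intro x _ y z w; rfl
  · intro x hx y z w
    rw [Submodule.top_orthogonal_eq_bot, Submodule.mem_bot] at hx
    rw [hx]
    exact zeroK (neg_bi (curv_bi h1)) y z w
  · have e : negT (addT (addT (addT R₁ R₂) fun _ _ _ _ => 0) (negT R₁)) = negT R₂ := by
      funext x y z w
      simp only [negT, addT]; ring
    rw [e]; exact hop
  · intro x y z w
    simp only [cyc]
    nlinarith [sq_nonneg (negT R₁ x y z w + negT R₁ y z x w + negT R₁ z x y w)]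

theorem two_dim (e : OrthonormalBasis (Fin 1 × Bool) ℝ V) {K : V → V → V → V → ℝ} (hK : BiForm K)
    (hs : 0 ≤ K (e (0, false)) (e (0, true)) (e (0, false)) (e (0, true))) : OpNonneg K := by
  have hk : Kills (⇑e) K := by
    intro x hx y z w
    have h0 : x = 0 := by
      rw [← e.sum_repr x]
      refine sum_eq_zero fun i _ => ?_
      rw [e.repr_apply_apply, hx i, zero_smul]
    rw [h0]; exact zeroK hK y z w
  refine op_nonneg_of hK e.orthonormal hk fun X hX => ?_
  have hX1 : X (0, false) (0, false) = 0 := by have := hX (0, false) (0, false); linarith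
  have hX2 : X (0, true) (0, true) = 0 := by have := hX (0, true) (0, true); linarith
  have hX3 : X (0, true) (0, false) = - X (0, false) (0, true) := hX _ _
  have k1 : K (e (0, true)) (e (0, false)) (e (0, false)) (e (0, true)) =
      - K (e (0, false)) (e (0, true)) (e (0, false)) (e (0, true)) := hK.anti _ _ _ _
  have k2 : K (e (0, false)) (e (0, true)) (e (0, true)) (e (0, false)) =
      - K (e (0, false)) (e (0, true)) (e (0, false)) (e (0, true)) := biAnti hK _ _ _ _
  have k3 : K (e (0, true)) (e (0, false)) (e (0, true)) (e (0, false)) =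
      K (e (0, false)) (e (0, true)) (e (0, false)) (e (0, true)) := by
    rw [biAnti hK, k1]; ring
  simp only [Fintype.sum_prod_type, Fin.sum_univ_succ, Fin.sum_univ_zero, Fintype.sum_bool,
    add_zero, hX1, hX2, hX3, mul_zero, zero_mul, k1, k2, k3, zero_add]
  nlinarith [mul_nonneg hs (sq_nonneg (X (0, false) (0, true)))]

theorem t_SUM : S_THO → S_ADB → S_SUM := by
  intro hTHO hADB m V _ _ e R₁ R₂ W h1 h2 hW hL hsec hop
  have hfin : Module.finrank ℝ V = m * 2 := by
    rw [Module.finrank_eq_card_basis e.toBasis]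
    simp
  rcases Nat.lt_or_ge m 2 with hm | hm
  · refine small h1 (by omega) ?_ hop
    interval_cases m
    · intro n x y
      have hs : ∀ v : V, v = 0 := by
        intro v
        rw [← e.sum_repr v]
        exact sum_eq_zero fun i _ => i.1.elim0
      refine sum_nonneg fun a _ => sum_nonneg fun b _ => ?_
      rw [hs (x a)]
      rw [zeroK (neg_bi (curv_bi h1))]
    · refine two_dim e (neg_bi (curv_bi h1)) ?_
      have := hsec (e (0, false)) (e (0, true))
      simp only [negT]; linarith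
  · obtain ⟨e', r, hr, hrW⟩ := hADB m V e W hm hW
    set f : Fin 4 → V := fun i => e' (r i) with hfdef
    have hf : Orthonormal ℝ f := e'.orthonormal.comp r hr
    have hWf : ∀ x, (∀ i, inner ℝ (f i) x = 0) → x ∈ Wᗮ := by
      intro x hx
      rw [← e'.sum_repr x]
      refine Submodule.sum_mem _ fun j _ => ?_
      by_cases hj : ∃ i, r i = j
      · obtain ⟨i, rfl⟩ := hj
        rw [e'.repr_apply_apply, hx i, zero_smul]
        exact Submodule.zero_mem _
      · exact Submodule.smul_mem _ _ (hrW j fun i hi => hj ⟨i, hi⟩)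
    have hb := curv_bi h1
    have hk1 : Kills f R₁ := fun x hx => hL x (hWf x hx)
    obtain ⟨t, ht⟩ := hTHO (fun i j k l => - R₁ (f i) (f j) (f k) (f l))
      (fun i j k l => by rw [hb.anti (f i) (f j)])
      (fun i j k l => by rw [hb.pair (f i) (f j)])
      (fun a b => by
        rw [S4_sec hb hf hk1]
        have := hsec (∑ i, a i • f i) (∑ j, b j • f j)
        linarith)
    have hv := vol_four f t
    have hvb : BiForm (vol f t) := hv.toBiForm
    have hvk := vol_kills f t
    have hKb : BiForm (negT (addT R₁ (vol f t))) := neg_bi (add_bi hb hvb)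
    have hKk : Kills f (negT (addT R₁ (vol f t))) := by
      intro x hx y z w
      simp only [negT, addT, hk1 x hx y z w, hvk x hx y z w]
      ring
    have hspan : ∀ x ∈ (Submodule.span ℝ (Set.range f))ᗮ, ∀ i, inner ℝ (f i) x = 0 := by
      intro x hx i
      exact (Submodule.mem_orthogonal _ x).mp hx (f i) (Submodule.subset_span ⟨i, rfl⟩)
    refine ⟨Submodule.span ℝ (Set.range f), vol f t, negT (addT R₁ (vol f t)), ?_, hv, ?_, hKb, ?_,
      ?_, ?_, ?_⟩
    · have := finrank_range_le_card (R := ℝ) f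
      simpa [Set.finrank] using this
    · intro x hx; exact hvk x (hspan x hx)
    · intro x hx; exact hKk x (hspan x hx)
    · refine op_nonneg_of hKb hf hKk fun X hX => ?_
      have h3 := ht X hX
      refine h3.trans (le_of_eq ?_)
      refine sum_congr rfl fun i _ => sum_congr rfl fun j _ => sum_congr rfl fun k _ =>
        sum_congr rfl fun l _ => ?_
      simp only [negT, addT]
      rw [vol_basis hf]
      ring
    · have e1 : negT (addT (addT (addT R₁ R₂) (vol f t)) (negT (addT R₁ (vol f t)))) = negT R₂ := by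
        funext x y z w
        simp only [negT, addT]; ring
      rw [e1]; exact hop
    · intro x y z w
      have h4 : cyc (negT (addT R₁ (vol f t))) x y z w = - cyc (vol f t) x y z w := by
        have := h1.bianchi x y z w
        simp only [cyc, negT, addT]
        linarith
      rw [h4]
      nlinarith [sq_nonneg (cyc (vol f t) x y z w)]

end main

end Pool.Agent.W150.HD
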